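import Mathlib

/-!
# MP_cec312_co : a flexible convex polytope with no two parallel edges

Answer to Q1: no.  The convex hull of the six points

`A = (-52,0,-39)`, `B = (0,0,0)`, `C = (0,39,-52)`, `D = (-52,39,-13)`, `X = (-24,-18,-72)`,
`Y = (-24,57,20)`

is a convex polytope of `ℝ³` with the six facets `ACDX`, `ABDY` (kites), `ABX`, `BCX`, `BCY`, `CDY` (triangles) and ten
edges `AB`, `BC`, `CD`, `AD`, `AX`, `CX`, `BX`, `BY`, `DY`, `CY`, no two of which are parallel.  It is flexible: keep `A` and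
`B`, rotate the vector `BC` about the vertical axis, keep the vector `CD`; `X` is the image of `D` under the half turn
about the line `AC`, and `Y` is the image of `A` under the half turn about the line `BD`.
-/

set_option autoImplicit false

open scoped RealInnerProductSpace

namespace Pool.Agent.Results.MP_cec312_co.NoParallel

/-- Euclidean space `ℝ^d`. -/
abbrev E (d : ℕ) : Type := EuclideanSpace ℝ (Fin d)

variable {d : ℕ}

/-- A convex polytope: the convex hull of a finite set. -/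
def IsPolytope (P : Set (E d)) : Prop := ∃ S : Finset (E d), P = convexHull ℝ (S : Set (E d))

/-- The vertices of `P`: its extreme points. -/
abbrev Vtx (P : Set (E d)) : Type := {x : E d // x ∈ P.extremePoints ℝ}

/-- `σ` is a facet of `P`: a nonempty exposed face whose affine hull has dimension `d - 1`. -/
def IsFacet (P σ : Set (E d)) : Prop :=
  σ.Nonempty ∧ IsExposed ℝ P σ ∧ Module.finrank ℝ (vectorSpan ℝ σ) + 1 = d

/-- The facets of `P`. -/
abbrev Fct (P : Set (E d)) : Type := {σ : Set (E d) // IsFacet P σ}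

/-- `ij` is an edge of `P`: the segment between the two different vertices `i`, `j` is an exposed face. -/
def IsEdge (P : Set (E d)) (i j : Vtx P) : Prop := i ≠ j ∧ IsExposed ℝ P (segment ℝ i.1 j.1)

/-- `a` is an outer unit normal of the facet `σ` of `P`. -/
def IsOuterNormal (P σ : Set (E d)) (a : E d) : Prop :=
  ‖a‖ = 1 ∧ ∀ x ∈ P, ∀ y ∈ σ, ⟪x, a⟫ ≤ ⟪y, a⟫

/-- `(p, a)` is a realization of the combinatorial type of `P`. -/
def IsRealization (P : Set (E d)) (p : Vtx P → E d) (a : Fct P → E d) : Prop :=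
  (∀ σ, ‖a σ‖ = 1) ∧
    ∀ (σ : Fct P) (i j : Vtx P), i.1 ∈ σ.1 → j.1 ∈ σ.1 → ⟪p j - p i, a σ⟫ = 0

/-- The positions `p` are equivalent to `P`: all edge lengths agree. -/
def Equivalent (P : Set (E d)) (p : Vtx P → E d) : Prop :=
  ∀ i j : Vtx P, IsEdge P i j → ‖p j - p i‖ = ‖j.1 - i.1‖

/-- The positions `p` are congruent to `P`: all distances between vertices agree. -/
def Congruent (P : Set (E d)) (p : Vtx P → E d) : Prop :=
  ∀ i j : Vtx P, ‖p j - p i‖ = ‖j.1 - i.1‖

/-- `t ↦ (p t, a t)`, `t ∈ [0,1]`, is a motion of `P`: a continuous curve of realizations equivalent to `P`, which starts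
at `P` itself (vertex positions and outer unit facet normals). -/
def IsMotion (P : Set (E d)) (p : unitInterval → Vtx P → E d) (a : unitInterval → Fct P → E d) : Prop :=
  Continuous p ∧ Continuous a ∧
    (∀ i : Vtx P, p 0 i = i.1) ∧ (∀ σ : Fct P, IsOuterNormal P σ.1 (a 0 σ)) ∧
    (∀ t, IsRealization P (p t) (a t)) ∧ ∀ t, Equivalent P (p t)

/-- `P` is flexible: it has a motion which is not trivial. -/
def Flexible (P : Set (E d)) : Prop :=
  ∃ (p : unitInterval → Vtx P → E d) (a : unitInterval → Fct P → E d),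
    IsMotion P p a ∧ ¬ ∀ t, Congruent P (p t)

/-- `P` has two distinct parallel edges. -/
def HasParallelEdges (P : Set (E d)) : Prop :=
  ∃ i j k l : Vtx P, IsEdge P i j ∧ IsEdge P k l ∧ ({i, j} : Set (Vtx P)) ≠ {k, l} ∧
    ¬ LinearIndependent ℝ ![j.1 - i.1, l.1 - k.1]

/-! ### The example -/

/-- the six points `A, B, C, D, X, Y` -/
noncomputable def pt : Fin 6 → E 3 :=
  ![!₂[-52, 0, -39], !₂[0, 0, 0], !₂[0, 39, -52], !₂[-52, 39, -13], !₂[-24, -18, -72], !₂[-24, 57, 20]]

/-- the polytope -/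
noncomputable def Poly : Set (E 3) := convexHull ℝ (Set.range pt)

/-- vertices of the facets -/
def Fc : Fin 6 → Finset (Fin 6) :=
  ![{0, 2, 3, 4}, {0, 1, 3, 5}, {0, 1, 4}, {1, 2, 4}, {1, 2, 5}, {2, 3, 5}]

/-- the motion -/
noncomputable def mv (t : ℝ) : Fin 6 → E 3 :=
  ![!₂[-52, 0, -39], !₂[0, 0, 0],
    !₂[-39 * Real.sin t, 39 * Real.cos t, -52],
    !₂[-39 * Real.sin t - 52, 39 * Real.cos t, -13],
    !₂[-(6 / (13 - 12 * Real.sin t)) * (52 - 39 * Real.sin t),
      -(6 / (13 - 12 * Real.sin t)) * (39 * Real.cos t),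
      -78 + 6 / (13 - 12 * Real.sin t) * 13],
    !₂[-39 * Real.sin t + 6 / (13 + 12 * Real.sin t) * (-52 - 39 * Real.sin t),
      39 * Real.cos t + 6 / (13 + 12 * Real.sin t) * (39 * Real.cos t),
      26 - 6 / (13 + 12 * Real.sin t) * 13]]

/-- (outer) normal vectors of the facets during the motion -/
noncomputable def nv (t : ℝ) : Fin 6 → E 3 :=
  ![!₂[-9 * Real.cos t, 8 - 9 * Real.sin t, -12 * Real.cos t],
    !₂[-9 * Real.cos t, -8 - 9 * Real.sin t, 12 * Real.cos t],
    !₂[-3 * Real.cos t, -12 + 13 * Real.sin t, 4 * Real.cos t],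
    !₂[3 * Real.cos t * (4 - 3 * Real.sin t), -(2 - 3 * Real.sin t) ^ 2, -3 * Real.cos t],
    !₂[3 * Real.cos t * (4 + 3 * Real.sin t), (2 + 3 * Real.sin t) ^ 2, 3 * Real.cos t],
    !₂[-3 * Real.cos t, 12 + 13 * Real.sin t, -4 * Real.cos t]]

theorem inner3 (x y : E 3) : ⟪x, y⟫ = x 0 * y 0 + x 1 * y 1 + x 2 * y 2 := by
  rw [EuclideanSpace.inner_eq_star_dotProduct]
  simp [dotProduct, Fin.sum_univ_three]
  ring

theorem den1 (t : ℝ) : 0 < 13 - 12 * Real.sin t := by
  have := Real.sin_le_one t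
  linarith

theorem den2 (t : ℝ) : 0 < 13 + 12 * Real.sin t := by
  have := Real.neg_one_le_sin t
  linarith

theorem mv_zero : mv 0 = pt := by
  funext m
  fin_cases m <;> (ext i; fin_cases i <;> simp [mv, pt] <;> norm_num)

/-- support numbers -/
noncomputable def cc (t : ℝ) : Fin 6 → ℝ :=
  ![936 * Real.cos t, 0, 0, 0, 0, 52 * Real.cos t * (13 + 12 * Real.sin t)]

theorem on_plane (t : ℝ) (k m : Fin 6) (h : m ∈ Fc k) : ⟪mv t m, nv t k⟫ = cc t k := by
  have h1 : 6 / (13 - 12 * Real.sin t) * (13 - 12 * Real.sin t) = 6 :=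
    div_mul_cancel₀ _ (den1 t).ne'
  have h2 : 6 / (13 + 12 * Real.sin t) * (13 + 12 * Real.sin t) = 6 :=
    div_mul_cancel₀ _ (den2 t).ne'
  unfold mv nv cc
  generalize 6 / (13 - 12 * Real.sin t) = μ at *
  generalize 6 / (13 + 12 * Real.sin t) = ν at *
  generalize Real.sin t = s at *
  generalize Real.cos t = c at *
  fin_cases k <;> fin_cases m <;> first
    | (exfalso; revert h; decide)
    | (rw [inner3]; simp; done)
    | (rw [inner3]; simp; ring1)
    | (rw [inner3]; simp; linear_combination (52 * c) * h1)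
    | (rw [inner3]; simp; linear_combination (-39 * c) * h1)
    | (rw [inner3]; simp; linear_combination (-39 * c) * h2)
    | (rw [inner3]; simp; linear_combination (52 * c) * h2)

theorem support_le (k m : Fin 6) : ⟪pt m, nv 0 k⟫ ≤ cc 0 k := by
  fin_cases k <;> fin_cases m <;> (rw [inner3]; simp [pt, nv, cc]; try norm_num)

/-- pairs which are not diagonals -/
def good (i j : Fin 6) : Bool :=
  ![![true, true, false, true, true, false], ![true, true, true, false, true, true],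
    ![false, true, true, true, true, true], ![true, false, true, true, false, true],
    ![true, true, true, false, true, false], ![false, true, true, true, false, true]] i j

theorem normsq3 (x : E 3) : ‖x‖ = Real.sqrt (x 0 ^ 2 + x 1 ^ 2 + x 2 ^ 2) := by
  rw [EuclideanSpace.norm_eq]
  simp [Fin.sum_univ_three]

theorem good_len (t : ℝ) (i j : Fin 6) (h : good i j = true) :
    ‖mv t j - mv t i‖ = ‖pt j - pt i‖ := by
  have h1 : 6 / (13 - 12 * Real.sin t) * (13 - 12 * Real.sin t) = 6 :=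
    div_mul_cancel₀ _ (den1 t).ne'
  have h2 : 6 / (13 + 12 * Real.sin t) * (13 + 12 * Real.sin t) = 6 :=
    div_mul_cancel₀ _ (den2 t).ne'
  have h3 := Real.sin_sq_add_cos_sq t
  rw [normsq3, normsq3]
  congr 1
  unfold mv pt
  generalize 6 / (13 - 12 * Real.sin t) = μ at *
  generalize 6 / (13 + 12 * Real.sin t) = ν at *
  generalize Real.sin t = s at *
  generalize Real.cos t = c at *
  fin_cases i <;> fin_cases j <;> first
    | (exfalso; revert h; decide)
    | (simp; done)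
    | (simp; norm_num; done)
    | (simp; ring1)
    | (simp; linear_combination 1521 * h3)
    | (simp; linear_combination 1521 * μ ^ 2 * h3 + (338 * μ - 338) * h1)
    | (simp; linear_combination 1521 * μ ^ 2 * h3 + 338 * μ * h1)
    | (simp; linear_combination 1521 * (1 + μ) ^ 2 * h3 + 338 * (1 + μ) * h1)
    | (simp; linear_combination 1521 * (1 + ν) ^ 2 * h3 + 338 * (1 + ν) * h2)
    | (simp; linear_combination 1521 * ν ^ 2 * h3 + 338 * ν * h2)
    | (simp; linear_combination 1521 * ν ^ 2 * h3 + (338 * ν - 338) * h2)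

theorem mem_poly {x : E 3} (hx : x ∈ Poly) :
    ∃ w : Fin 6 → ℝ, (∀ m, 0 ≤ w m) ∧ ∑ m, w m = 1 ∧ ∑ m, w m • pt m = x := by
  have hsub : Poly ⊆ {x : E 3 | ∃ w : Fin 6 → ℝ, (∀ m, 0 ≤ w m) ∧ ∑ m, w m = 1 ∧
      ∑ m, w m • pt m = x} := by
    apply convexHull_min
    · rintro _ ⟨k, rfl⟩
      refine ⟨fun m => if m = k then 1 else 0, ?_, ?_, ?_⟩
      · intro m
        show (0 : ℝ) ≤ if m = k then 1 else 0
        split_ifs <;> norm_num
      · simp
      · simp
    · rintro _ ⟨w, hw0, hw1, rfl⟩ _ ⟨w', hw0', hw1', rfl⟩ a b ha hb hab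
      refine ⟨fun m => a * w m + b * w' m, ?_, ?_, ?_⟩
      · intro m
        have := hw0 m
        have := hw0' m
        positivity
      · rw [Finset.sum_add_distrib, ← Finset.mul_sum, ← Finset.mul_sum, hw1, hw1', mul_one, mul_one,
          hab]
      · simp only [add_smul, Finset.sum_add_distrib, mul_smul, Finset.smul_sum]
  exact hsub hx

theorem pt_mem (m : Fin 6) : pt m ∈ Poly := subset_convexHull ℝ _ ⟨m, rfl⟩

/-- value of a functional on the six points -/
def LL (α β γ : ℝ) : Fin 6 → ℝ :=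
  ![-52 * α - 39 * γ, 0, 39 * β - 52 * γ, -52 * α + 39 * β - 13 * γ, -24 * α - 18 * β - 72 * γ,
    -24 * α + 57 * β + 20 * γ]

theorem functional (l : StrongDual ℝ (E 3)) : ∃ α β γ : ℝ, (∀ m, l (pt m) = LL α β γ m) ∧
    ∀ x : E 3, l x = α * x 0 + β * x 1 + γ * x 2 := by
  have hl : ∀ x : E 3, l x = l (EuclideanSpace.single 0 1) * x 0 +
      l (EuclideanSpace.single 1 1) * x 1 + l (EuclideanSpace.single 2 1) * x 2 := by
    intro x
    have hx : x = x 0 • EuclideanSpace.single (0 : Fin 3) (1 : ℝ) +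
        x 1 • EuclideanSpace.single (1 : Fin 3) (1 : ℝ) +
        x 2 • EuclideanSpace.single (2 : Fin 3) (1 : ℝ) := by
      ext i
      fin_cases i <;> simp
    conv_lhs => rw [hx]
    rw [map_add, map_add, map_smul, map_smul, map_smul]
    simp only [smul_eq_mul]
    ring
  refine ⟨_, _, _, ?_, hl⟩
  intro m
  rw [hl]
  fin_cases m <;> simp [pt, LL] <;> ring

/-- basic facts on a nonempty exposed face of the polytope -/
theorem face {σ : Set (E 3)} (hne : σ.Nonempty) (hσ : IsExposed ℝ Poly σ) :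
    ∃ α β γ M : ℝ, (∀ m, LL α β γ m ≤ M) ∧ (∀ m, pt m ∈ σ ↔ LL α β γ m = M) ∧
      (∀ x ∈ σ, ∃ w : Fin 6 → ℝ, (∀ m, 0 ≤ w m) ∧ ∑ m, w m = 1 ∧ ∑ m, w m • pt m = x ∧
        ∀ m, w m ≠ 0 → LL α β γ m = M) ∧
      (α = 0 → β = 0 → γ = 0 → σ = Poly) := by
  obtain ⟨l, hl⟩ := hσ hne
  obtain ⟨α, β, γ, h1, h2⟩ := functional l
  obtain ⟨x0, hx0⟩ := hne
  have hx0' := hx0
  rw [hl] at hx0'
  have hM : ∀ x ∈ σ, l x = l x0 := by
    intro x hx
    rw [hl] at hx
    exact le_antisymm (hx0'.2 x hx.1) (hx.2 x0 hx0'.1)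
  refine ⟨α, β, γ, l x0, ?_, ?_, ?_, ?_⟩
  · intro m
    rw [← h1]
    exact hx0'.2 _ (pt_mem m)
  · intro m
    rw [← h1]
    constructor
    · intro h
      exact hM _ h
    · intro h
      rw [hl]
      refine ⟨pt_mem m, fun y hy => ?_⟩
      rw [h]
      exact hx0'.2 y hy
  · intro x hx
    have hxP : x ∈ Poly := by
      rw [hl] at hx
      exact hx.1
    obtain ⟨w, hw0, hw1, hw2⟩ := mem_poly hxP
    refine ⟨w, hw0, hw1, hw2, ?_⟩
    intro m hm
    rw [← h1]
    by_contra hne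
    have hlt : l (pt m) < l x0 := lt_of_le_of_ne (hx0'.2 _ (pt_mem m)) hne
    have h3 : l x = ∑ k, w k * l (pt k) := by
      rw [← hw2, map_sum]
      exact Finset.sum_congr rfl fun k _ => by rw [map_smul, smul_eq_mul]
    have h4 : ∑ k, w k * l (pt k) < ∑ k, w k * l x0 := by
      apply Finset.sum_lt_sum
      · intro k _
        exact mul_le_mul_of_nonneg_left (hx0'.2 _ (pt_mem k)) (hw0 k)
      · exact ⟨m, Finset.mem_univ _, mul_lt_mul_of_pos_left hlt
          (lt_of_le_of_ne (hw0 m) (Ne.symm hm))⟩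
    rw [← Finset.sum_mul, hw1, one_mul, ← h3, hM x hx] at h4
    exact lt_irrefl _ h4
  · rintro rfl rfl rfl
    rw [hl]
    ext x
    constructor
    · intro h
      exact h.1
    · intro h
      refine ⟨h, fun y _ => ?_⟩
      rw [h2, h2]
      simp

/-- every proper exposed face is contained in one of the six facets -/
theorem classify (α β γ M : ℝ) (h : ∀ m, LL α β γ m ≤ M) :
    (α = 0 ∧ β = 0 ∧ γ = 0) ∨ ∃ k, ∀ m, LL α β γ m = M → m ∈ Fc k := by
  have a0 : -52 * α - 39 * γ ≤ M := h 0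
  have a1 : 0 ≤ M := h 1
  have a2 : 39 * β - 52 * γ ≤ M := h 2
  have a3 : -52 * α + 39 * β - 13 * γ ≤ M := h 3
  have a4 : -24 * α - 18 * β - 72 * γ ≤ M := h 4
  have a5 : -24 * α + 57 * β + 20 * γ ≤ M := h 5
  by_contra hcon
  push Not at hcon
  obtain ⟨hz, hk⟩ := hcon
  have aux : ∀ k, ∃ m, LL α β γ m = M ∧ m ∉ Fc k := hk
  have b0 : 0 = M ∨ -24 * α + 57 * β + 20 * γ = M := by
    obtain ⟨m, hm, hn⟩ := aux 0
    fin_cases m
    all_goals first
      | (exfalso; revert hn; decide)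
      | exact Or.inl hm
      | exact Or.inr hm
  have b1 : 39 * β - 52 * γ = M ∨ -24 * α - 18 * β - 72 * γ = M := by
    obtain ⟨m, hm, hn⟩ := aux 1
    fin_cases m
    all_goals first
      | (exfalso; revert hn; decide)
      | exact Or.inl hm
      | exact Or.inr hm
  have b2 : 39 * β - 52 * γ = M ∨ -52 * α + 39 * β - 13 * γ = M ∨ -24 * α + 57 * β + 20 * γ = M := by
    obtain ⟨m, hm, hn⟩ := aux 2
    fin_cases m
    all_goals first
      | (exfalso; revert hn; decide)
      | exact Or.inl hm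
      | exact Or.inr (Or.inl hm)
      | exact Or.inr (Or.inr hm)
  have b3 : -52 * α - 39 * γ = M ∨ -52 * α + 39 * β - 13 * γ = M ∨ -24 * α + 57 * β + 20 * γ = M := by
    obtain ⟨m, hm, hn⟩ := aux 3
    fin_cases m
    all_goals first
      | (exfalso; revert hn; decide)
      | exact Or.inl hm
      | exact Or.inr (Or.inl hm)
      | exact Or.inr (Or.inr hm)
  have b4 : -52 * α - 39 * γ = M ∨ -52 * α + 39 * β - 13 * γ = M ∨ -24 * α - 18 * β - 72 * γ = M := by
    obtain ⟨m, hm, hn⟩ := aux 4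
    fin_cases m
    all_goals first
      | (exfalso; revert hn; decide)
      | exact Or.inl hm
      | exact Or.inr (Or.inl hm)
      | exact Or.inr (Or.inr hm)
  have b5 : -52 * α - 39 * γ = M ∨ 0 = M ∨ -24 * α - 18 * β - 72 * γ = M := by
    obtain ⟨m, hm, hn⟩ := aux 5
    fin_cases m
    all_goals first
      | (exfalso; revert hn; decide)
      | exact Or.inl hm
      | exact Or.inr (Or.inl hm)
      | exact Or.inr (Or.inr hm)
  have key : α = 0 ∧ β = 0 ∧ γ = 0 := by
    rcases b0 with c0 | c0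
    · rcases b1 with c1 | c1
      · rcases b3 with c3 | c3 | c3
        · exact ⟨by linarith, by linarith, by linarith⟩
        · exact ⟨by linarith, by linarith, by linarith⟩
        · rcases b4 with c4 | c4 | c4 <;> exact ⟨by linarith, by linarith, by linarith⟩
      · rcases b2 with c2 | c2 | c2
        · rcases b3 with c3 | c3 | c3 <;> exact ⟨by linarith, by linarith, by linarith⟩
        · exact ⟨by linarith, by linarith, by linarith⟩
        · exact ⟨by linarith, by linarith, by linarith⟩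
    · rcases b1 with c1 | c1
      · rcases b4 with c4 | c4 | c4
        · exact ⟨by linarith, by linarith, by linarith⟩
        · rcases b5 with c5 | c5 | c5 <;> exact ⟨by linarith, by linarith, by linarith⟩
        · exact ⟨by linarith, by linarith, by linarith⟩
      · exact ⟨by linarith, by linarith, by linarith⟩
  exact hz key.1 key.2.1 key.2.2

theorem vectorSpan_range : vectorSpan ℝ (Set.range pt) = ⊤ := by
  rw [eq_top_iff]
  intro x _
  have h0 : pt 0 - pt 1 ∈ vectorSpan ℝ (Set.range pt) :=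
    vsub_mem_vectorSpan ℝ ⟨0, rfl⟩ ⟨1, rfl⟩
  have h2 : pt 2 - pt 1 ∈ vectorSpan ℝ (Set.range pt) :=
    vsub_mem_vectorSpan ℝ ⟨2, rfl⟩ ⟨1, rfl⟩
  have h3 : pt 3 - pt 1 ∈ vectorSpan ℝ (Set.range pt) :=
    vsub_mem_vectorSpan ℝ ⟨3, rfl⟩ ⟨1, rfl⟩
  set c : ℝ := (x 2 - 3 / 4 * x 0 + 4 / 3 * x 1) / 78 with hc
  have hx : x = (-x 0 / 52 - c) • (pt 0 - pt 1) + (x 1 / 39 - c) • (pt 2 - pt 1) +
      c • (pt 3 - pt 1) := by
    ext i
    fin_cases i <;> simp [pt, hc] <;> ring
  rw [hx]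
  exact Submodule.add_mem _ (Submodule.add_mem _ (Submodule.smul_mem _ _ h0)
    (Submodule.smul_mem _ _ h2)) (Submodule.smul_mem _ _ h3)

theorem affineSpan_range : affineSpan ℝ (Set.range pt) = ⊤ :=
  (AffineSubspace.affineSpan_eq_top_iff_vectorSpan_eq_top_of_nonempty ℝ (E 3) (E 3)
    (Set.range_nonempty pt)).2 vectorSpan_range

theorem interior_poly : (interior Poly).Nonempty :=
  interior_convexHull_nonempty_iff_affineSpan_eq_top.2 affineSpan_range

theorem finrank_poly : Module.finrank ℝ (vectorSpan ℝ Poly) = 3 := by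
  have h : vectorSpan ℝ Poly = ⊤ := by
    rw [eq_top_iff, ← vectorSpan_range]
    exact vectorSpan_mono ℝ (subset_convexHull ℝ _)
  rw [h, finrank_top, finrank_euclideanSpace_fin]

theorem isPolytope_poly : IsPolytope Poly := by
  refine ⟨Finset.univ.image pt, ?_⟩
  simp [Poly]

/-- every facet is one of the six -/
theorem facet_index (σ : Fct Poly) : ∃ k : Fin 6, (∀ m, pt m ∈ σ.1 → m ∈ Fc k) ∧
    ∀ x ∈ Poly, ∀ y ∈ σ.1, ⟪x, nv 0 k⟫ ≤ ⟪y, nv 0 k⟫ := by
  obtain ⟨hne, hexp, hdim⟩ := σ.2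
  obtain ⟨α, β, γ, M, h1, h2, h3, h4⟩ := face hne hexp
  rcases classify α β γ M h1 with hz | ⟨k, hk⟩
  · exfalso
    rw [h4 hz.1 hz.2.1 hz.2.2, finrank_poly] at hdim
    omega
  · refine ⟨k, fun m hm => hk m ((h2 m).1 hm), ?_⟩
    intro x hx y hy
    have hle : ⟪x, nv 0 k⟫ ≤ cc 0 k := by
      obtain ⟨w, hw0, hw1, rfl⟩ := mem_poly hx
      rw [sum_inner]
      calc ∑ m, ⟪w m • pt m, nv 0 k⟫ ≤ ∑ m, w m * cc 0 k := by
            apply Finset.sum_le_sum
            intro m _
            rw [real_inner_smul_left]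
            exact mul_le_mul_of_nonneg_left (support_le k m) (hw0 m)
        _ = cc 0 k := by rw [← Finset.sum_mul, hw1, one_mul]
    have heq : ⟪y, nv 0 k⟫ = cc 0 k := by
      obtain ⟨w, hw0, hw1, rfl, hw2⟩ := h3 y hy
      rw [sum_inner]
      calc ∑ m, ⟪w m • pt m, nv 0 k⟫ = ∑ m, w m * cc 0 k := by
            apply Finset.sum_congr rfl
            intro m _
            rw [real_inner_smul_left]
            by_cases hm : w m = 0
            · rw [hm, zero_mul, zero_mul]
            · rw [← on_plane 0 k m (hk m (hw2 m hm)), mv_zero]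
        _ = cc 0 k := by rw [← Finset.sum_mul, hw1, one_mul]
    rw [heq]
    exact hle

theorem not_mem_seg {i j k : Fin 6} (h : pt k ∈ segment ℝ (pt i) (pt j)) :
    ∃ a b : ℝ, 0 ≤ a ∧ 0 ≤ b ∧ a + b = 1 ∧ ∀ c, a * pt i c + b * pt j c = pt k c := by
  obtain ⟨a, b, ha, hb, hab, h⟩ := h
  refine ⟨a, b, ha, hb, hab, fun c => ?_⟩
  rw [← h]
  simp

theorem edge_good (i j : Fin 6) (hexp : IsExposed ℝ Poly (segment ℝ (pt i) (pt j))) :
    good i j = true := by
  obtain ⟨α, β, γ, M, h1, h2, -, -⟩ := face ⟨pt i, left_mem_segment ℝ _ _⟩ hexp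
  have hi : LL α β γ i = M := (h2 i).1 (left_mem_segment ℝ _ _)
  have hj : LL α β γ j = M := (h2 j).1 (right_mem_segment ℝ _ _)
  have a0 : -52 * α - 39 * γ ≤ M := h1 0
  have a1 : 0 ≤ M := h1 1
  have a2 : 39 * β - 52 * γ ≤ M := h1 2
  have a3 : -52 * α + 39 * β - 13 * γ ≤ M := h1 3
  have a4 : -24 * α - 18 * β - 72 * γ ≤ M := h1 4
  have a5 : -24 * α + 57 * β + 20 * γ ≤ M := h1 5
  by_contra hbad
  have e0 : LL α β γ 0 = -52 * α - 39 * γ := rfl
  have e1 : LL α β γ 1 = 0 := rfl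
  have e2 : LL α β γ 2 = 39 * β - 52 * γ := rfl
  have e3 : LL α β γ 3 = -52 * α + 39 * β - 13 * γ := rfl
  have e4 : LL α β γ 4 = -24 * α - 18 * β - 72 * γ := rfl
  have e5 : LL α β γ 5 = -24 * α + 57 * β + 20 * γ := rfl
  have hcase : (i = 0 ∧ j = 2) ∨ (i = 2 ∧ j = 0) ∨ (i = 1 ∧ j = 3) ∨ (i = 3 ∧ j = 1) ∨
      (i = 3 ∧ j = 4) ∨ (i = 4 ∧ j = 3) ∨ (i = 0 ∧ j = 5) ∨ (i = 5 ∧ j = 0) ∨
      (i = 4 ∧ j = 5) ∨ (i = 5 ∧ j = 4) := by
    revert hbad
    clear hexp h1 h2 hi hj
    revert i j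
    decide
  rcases hcase with ⟨rfl, rfl⟩ | ⟨rfl, rfl⟩ | ⟨rfl, rfl⟩ | ⟨rfl, rfl⟩ | ⟨rfl, rfl⟩ | ⟨rfl, rfl⟩ |
    ⟨rfl, rfl⟩ | ⟨rfl, rfl⟩ | ⟨rfl, rfl⟩ | ⟨rfl, rfl⟩
  · rw [e0] at hi; rw [e2] at hj
    obtain ⟨a, b, ha, hb, hab, h⟩ := not_mem_seg ((h2 3).2 (by rw [e3]; linarith))
    have c0 := h 0; have c1 := h 1
    simp [pt] at c0 c1
    linarith
  · rw [e2] at hi; rw [e0] at hj
    obtain ⟨a, b, ha, hb, hab, h⟩ := not_mem_seg ((h2 3).2 (by rw [e3]; linarith))
    have c0 := h 0; have c1 := h 1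
    simp [pt] at c0 c1
    linarith
  · rw [e1] at hi; rw [e3] at hj
    obtain ⟨a, b, ha, hb, hab, h⟩ := not_mem_seg ((h2 0).2 (by rw [e0]; linarith))
    have c0 := h 0; have c1 := h 1
    simp [pt] at c0 c1
    linarith
  · rw [e3] at hi; rw [e1] at hj
    obtain ⟨a, b, ha, hb, hab, h⟩ := not_mem_seg ((h2 0).2 (by rw [e0]; linarith))
    have c0 := h 0; have c1 := h 1
    simp [pt] at c0 c1
    linarith
  · rw [e3] at hi; rw [e4] at hj
    obtain ⟨a, b, ha, hb, hab, h⟩ := not_mem_seg ((h2 0).2 (by rw [e0]; linarith))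
    have c0 := h 0; have c1 := h 1
    simp [pt] at c0 c1
    linarith
  · rw [e4] at hi; rw [e3] at hj
    obtain ⟨a, b, ha, hb, hab, h⟩ := not_mem_seg ((h2 0).2 (by rw [e0]; linarith))
    have c0 := h 0; have c1 := h 1
    simp [pt] at c0 c1
    linarith
  · rw [e0] at hi; rw [e5] at hj
    obtain ⟨a, b, ha, hb, hab, h⟩ := not_mem_seg ((h2 1).2 (by rw [e1]; linarith))
    have c0 := h 0; have c1 := h 1
    simp [pt] at c0 c1
    linarith
  · rw [e5] at hi; rw [e0] at hj
    obtain ⟨a, b, ha, hb, hab, h⟩ := not_mem_seg ((h2 1).2 (by rw [e1]; linarith))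
    have c0 := h 0; have c1 := h 1
    simp [pt] at c0 c1
    linarith
  · rw [e4] at hi; rw [e5] at hj
    obtain ⟨a, b, ha, hb, hab, h⟩ := not_mem_seg ((h2 0).2 (by rw [e0]; linarith))
    have c0 := h 0; have c1 := h 1
    simp [pt] at c0 c1
    linarith
  · rw [e5] at hi; rw [e4] at hj
    obtain ⟨a, b, ha, hb, hab, h⟩ := not_mem_seg ((h2 0).2 (by rw [e0]; linarith))
    have c0 := h 0; have c1 := h 1
    simp [pt] at c0 c1
    linarith

theorem vtx_index (v : Vtx Poly) : ∃ m, pt m = v.1 := by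
  have h : v.1 ∈ Set.range pt := extremePoints_convexHull_subset v.2
  exact h

/-- integer coordinates -/
def ptZ : Fin 6 → Fin 3 → ℤ :=
  ![![-52, 0, -39], ![0, 0, 0], ![0, 39, -52], ![-52, 39, -13], ![-24, -18, -72], ![-24, 57, 20]]

theorem pt_cast (m : Fin 6) (i : Fin 3) : pt m i = (ptZ m i : ℝ) := by
  fin_cases m <;> fin_cases i <;> simp [pt, ptZ]

theorem pt_inj : Function.Injective pt := by
  intro a b h
  have h1 : ptZ a = ptZ b := by
    funext i
    have := congrArg (fun x : E 3 => x i) h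
    simp only [pt_cast] at this
    exact_mod_cast this
  have hinj : ∀ a b : Fin 6, ptZ a = ptZ b → a = b := by decide
  exact hinj a b h1

theorem cross_ne : ∀ a b c e : Fin 6, good a b = true → good c e = true → a ≠ b → c ≠ e →
    ¬ ((a = c ∧ b = e) ∨ (a = e ∧ b = c)) →
    ((ptZ b 0 - ptZ a 0) * (ptZ e 1 - ptZ c 1) - (ptZ b 1 - ptZ a 1) * (ptZ e 0 - ptZ c 0) ≠ 0 ∨
      (ptZ b 0 - ptZ a 0) * (ptZ e 2 - ptZ c 2) - (ptZ b 2 - ptZ a 2) * (ptZ e 0 - ptZ c 0) ≠ 0 ∨
      (ptZ b 1 - ptZ a 1) * (ptZ e 2 - ptZ c 2) - (ptZ b 2 - ptZ a 2) * (ptZ e 1 - ptZ c 1) ≠ 0) := by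
  decide

/-- a point of the list at which a functional has its strict maximum is a vertex -/
theorem vertex_of_max (v : E 3) (m0 : Fin 6) (h : ∀ m, m ≠ m0 → ⟪v, pt m⟫ < ⟪v, pt m0⟫) :
    pt m0 ∈ Poly.extremePoints ℝ := by
  apply exposedPoints_subset_extremePoints
  refine ⟨pt_mem m0, innerSL ℝ v, ?_⟩
  intro y hy
  obtain ⟨w, hw0, hw1, rfl⟩ := mem_poly hy
  have hle : ∀ m, ⟪v, pt m⟫ ≤ ⟪v, pt m0⟫ := by
    intro m
    by_cases hm : m = m0
    · rw [hm]
    · exact (h m hm).le
  have hval : ⟪v, ∑ m, w m • pt m⟫ = ∑ m, w m * ⟪v, pt m⟫ := by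
    rw [inner_sum]
    exact Finset.sum_congr rfl fun m _ => by rw [real_inner_smul_right]
  have hmax : ∑ m, w m * ⟪v, pt m0⟫ = ⟪v, pt m0⟫ := by rw [← Finset.sum_mul, hw1, one_mul]
  rw [innerSL_apply_apply, innerSL_apply_apply]
  constructor
  · rw [hval, ← hmax]
    exact Finset.sum_le_sum fun m _ => mul_le_mul_of_nonneg_left (hle m) (hw0 m)
  · intro hge
    have hzero : ∀ m, m ≠ m0 → w m = 0 := by
      intro m hm
      by_contra hne
      have hlt : ∑ k, w k * ⟪v, pt k⟫ < ∑ k, w k * ⟪v, pt m0⟫ := by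
        apply Finset.sum_lt_sum
        · intro k _
          exact mul_le_mul_of_nonneg_left (hle k) (hw0 k)
        · exact ⟨m, Finset.mem_univ _, mul_lt_mul_of_pos_left (h m hm)
            (lt_of_le_of_ne (hw0 m) (Ne.symm hne))⟩
      rw [hmax, ← hval] at hlt
      exact absurd hge (not_le.2 hlt)
    have hone : w m0 = 1 := by
      rw [← hw1]
      symm
      apply Finset.sum_eq_single m0
      · intro m _ hm
        exact hzero m hm
      · intro h
        exact absurd (Finset.mem_univ _) h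
    rw [Finset.sum_eq_single m0]
    · rw [hone, one_smul]
    · intro m _ hm
      rw [hzero m hm, zero_smul]
    · intro h
      exact absurd (Finset.mem_univ _) h

theorem vertex0 : pt 0 ∈ Poly.extremePoints ℝ := by
  apply vertex_of_max !₂[-4, -3, 1] 0
  intro m hm
  fin_cases m
  · exact absurd rfl hm
  all_goals (rw [inner3, inner3]; simp [pt]; try norm_num)

theorem vertex2 : pt 2 ∈ Poly.extremePoints ℝ := by
  apply vertex_of_max !₂[1, 1, -1] 2
  intro m hm
  fin_cases m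
  on_goal 3 => exact absurd rfl hm
  all_goals (rw [inner3, inner3]; simp [pt]; try norm_num)

theorem cont3 {f g h : ℝ → ℝ} (hf : Continuous f) (hg : Continuous g) (hh : Continuous h) :
    Continuous fun t => (!₂[f t, g t, h t] : E 3) := by
  refine (PiLp.continuous_toLp 2 _).comp (continuous_pi fun i => ?_)
  fin_cases i
  · exact hf
  · exact hg
  · exact hh

theorem cont_mv (m : Fin 6) : Continuous fun t => mv t m := by
  have h1 : Continuous fun t : ℝ => 6 / (13 - 12 * Real.sin t) :=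
    continuous_const.div (by fun_prop) fun t => (den1 t).ne'
  have h2 : Continuous fun t : ℝ => 6 / (13 + 12 * Real.sin t) :=
    continuous_const.div (by fun_prop) fun t => (den2 t).ne'
  fin_cases m
  · exact cont3 (by fun_prop) (by fun_prop) (by fun_prop)
  · exact cont3 (by fun_prop) (by fun_prop) (by fun_prop)
  · exact cont3 (by fun_prop) (by fun_prop) (by fun_prop)
  · exact cont3 (by fun_prop) (by fun_prop) (by fun_prop)
  · exact cont3 (h1.neg.mul (by fun_prop)) (h1.neg.mul (by fun_prop))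
      (continuous_const.add (h1.mul continuous_const))
  · exact cont3 ((by fun_prop : Continuous fun t : ℝ => -39 * Real.sin t).add
        (h2.mul (by fun_prop)))
      ((by fun_prop : Continuous fun t : ℝ => 39 * Real.cos t).add (h2.mul (by fun_prop)))
      (continuous_const.sub (h2.mul continuous_const))

theorem cont_nv (k : Fin 6) : Continuous fun t => nv t k := by
  fin_cases k
  all_goals exact cont3 (by fun_prop) (by fun_prop) (by fun_prop)

theorem nv_ne_zero (t : ℝ) (h0 : 0 ≤ t) (h1 : t ≤ 1) (k : Fin 6) : nv t k ≠ 0 := by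
  have hc : 0 < Real.cos t := by
    apply Real.cos_pos_of_mem_Ioo
    constructor
    · linarith [Real.pi_pos]
    · linarith [Real.pi_gt_three]
  have hs1 := Real.sin_le_one t
  have hs2 := Real.neg_one_le_sin t
  intro h
  have h2 := congrArg (fun x : E 3 => x 0) h
  fin_cases k <;> simp [nv] at h2
  · linarith
  · linarith
  · linarith
  · rcases h2 with h2 | h2
    · linarith
    · linarith
  · rcases h2 with h2 | h2
    · linarith
    · linarith
  · linarith

theorem dist_changes : ‖mv 1 2 - mv 1 0‖ ≠ ‖pt 2 - pt 0‖ := by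
  have h3 := Real.sin_sq_add_cos_sq 1
  have hs : 0 < Real.sin 1 := Real.sin_pos_of_pos_of_lt_pi one_pos (by linarith [Real.pi_gt_three])
  intro h
  have h2 : ‖mv 1 2 - mv 1 0‖ ^ 2 = ‖pt 2 - pt 0‖ ^ 2 := by rw [h]
  rw [normsq3, normsq3, Real.sq_sqrt (by positivity), Real.sq_sqrt (by positivity)] at h2
  simp [mv, pt] at h2
  nlinarith

/-- The polytope is flexible. -/
theorem flexible_poly : Flexible Poly := by
  classical
  choose idx hidx using vtx_index
  choose fk hfk1 hfk2 using facet_index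
  refine ⟨fun t v => mv t.1 (idx v), fun t σ => ‖nv t.1 (fk σ)‖⁻¹ • nv t.1 (fk σ), ?_, ?_⟩
  · refine ⟨?_, ?_, ?_, ?_, ?_, ?_⟩
    · exact continuous_pi fun v => (cont_mv (idx v)).comp continuous_subtype_val
    · refine continuous_pi fun σ => ?_
      have hc : Continuous fun t : unitInterval => nv t.1 (fk σ) :=
        (cont_nv (fk σ)).comp continuous_subtype_val
      exact (hc.norm.inv₀ fun t => norm_ne_zero_iff.2 (nv_ne_zero t.1 t.2.1 t.2.2 _)).smul hc
    · intro v
      show mv (0 : ℝ) (idx v) = v.1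
      rw [mv_zero, hidx]
    · intro σ
      show IsOuterNormal Poly σ.1 (‖nv (0 : ℝ) (fk σ)‖⁻¹ • nv (0 : ℝ) (fk σ))
      have hn : ‖nv (0 : ℝ) (fk σ)‖ ≠ 0 :=
        norm_ne_zero_iff.2 (nv_ne_zero 0 le_rfl zero_le_one _)
      refine ⟨?_, ?_⟩
      · rw [norm_smul, norm_inv, norm_norm, inv_mul_cancel₀ hn]
      · intro x hx y hy
        rw [real_inner_smul_right, real_inner_smul_right]
        exact mul_le_mul_of_nonneg_left (hfk2 σ x hx y hy) (inv_nonneg.2 (norm_nonneg _))
    · intro t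
      refine ⟨?_, ?_⟩
      · intro σ
        have hn : ‖nv t.1 (fk σ)‖ ≠ 0 := norm_ne_zero_iff.2 (nv_ne_zero t.1 t.2.1 t.2.2 _)
        show ‖‖nv t.1 (fk σ)‖⁻¹ • nv t.1 (fk σ)‖ = 1
        rw [norm_smul, norm_inv, norm_norm, inv_mul_cancel₀ hn]
      · intro σ i j hi hj
        show ⟪mv t.1 (idx j) - mv t.1 (idx i), ‖nv t.1 (fk σ)‖⁻¹ • nv t.1 (fk σ)⟫ = 0
        have h1 : idx i ∈ Fc (fk σ) := hfk1 σ _ (by rw [hidx]; exact hi)
        have h2 : idx j ∈ Fc (fk σ) := hfk1 σ _ (by rw [hidx]; exact hj)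
        rw [real_inner_smul_right, inner_sub_left, on_plane _ _ _ h1, on_plane _ _ _ h2, sub_self,
          mul_zero]
    · intro t i j hij
      show ‖mv t.1 (idx j) - mv t.1 (idx i)‖ = ‖j.1 - i.1‖
      rw [← hidx i, ← hidx j]
      apply good_len
      apply edge_good
      rw [hidx i, hidx j]
      exact hij.2
  · intro hcon
    have h := hcon 1 ⟨pt 0, vertex0⟩ ⟨pt 2, vertex2⟩
    have h0 : idx ⟨pt 0, vertex0⟩ = 0 := pt_inj (hidx _)
    have h2 : idx ⟨pt 2, vertex2⟩ = 2 := pt_inj (hidx _)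
    change ‖mv (1 : ℝ) (idx ⟨pt 2, vertex2⟩) - mv (1 : ℝ) (idx ⟨pt 0, vertex0⟩)‖ =
      ‖pt 2 - pt 0‖ at h
    rw [h0, h2] at h
    exact dist_changes h

/-- No two edges of the polytope are parallel. -/
theorem no_parallel : ¬ HasParallelEdges Poly := by
  rintro ⟨i, j, k, l, hij, hkl, hne, hdep⟩
  apply hdep
  obtain ⟨a, ha⟩ := vtx_index i
  obtain ⟨b, hb⟩ := vtx_index j
  obtain ⟨c, hc⟩ := vtx_index k
  obtain ⟨e, he⟩ := vtx_index l
  have hab : good a b = true := edge_good a b (by rw [ha, hb]; exact hij.2)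
  have hce : good c e = true := edge_good c e (by rw [hc, he]; exact hkl.2)
  have hab' : a ≠ b := by
    rintro rfl
    exact hij.1 (Subtype.ext (ha.symm.trans hb))
  have hce' : c ≠ e := by
    rintro rfl
    exact hkl.1 (Subtype.ext (hc.symm.trans he))
  have hpair : ¬ ((a = c ∧ b = e) ∨ (a = e ∧ b = c)) := by
    rintro (⟨rfl, rfl⟩ | ⟨rfl, rfl⟩)
    · apply hne
      have e1 : i = k := Subtype.ext (ha.symm.trans hc)
      have e2 : j = l := Subtype.ext (hb.symm.trans he)
      rw [e1, e2]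
    · apply hne
      have e1 : i = l := Subtype.ext (ha.symm.trans he)
      have e2 : j = k := Subtype.ext (hb.symm.trans hc)
      rw [e1, e2, Set.pair_comm]
  have hcross := cross_ne a b c e hab hce hab' hce' hpair
  rw [LinearIndependent.pair_iff]
  intro s t hst
  have hco : ∀ x : Fin 3, s * ((ptZ b x : ℝ) - ptZ a x) + t * ((ptZ e x : ℝ) - ptZ c x) = 0 := by
    intro x
    have h1 := congrArg (fun v : E 3 => v x) hst
    simp only [← ha, ← hb, ← hc, ← he] at h1
    simpa [pt_cast] using h1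
  have h0 := hco 0
  have h1 := hco 1
  have h2 := hco 2
  have key : ∀ u0 u1 v0 v1 : ℤ, u0 * v1 - u1 * v0 ≠ 0 → s * (u0 : ℝ) + t * (v0 : ℝ) = 0 →
      s * (u1 : ℝ) + t * (v1 : ℝ) = 0 → s = 0 ∧ t = 0 := by
    intro u0 u1 v0 v1 hne h h'
    have hne' : (u0 : ℝ) * v1 - u1 * v0 ≠ 0 := by exact_mod_cast hne
    constructor
    · have : s * ((u0 : ℝ) * v1 - u1 * v0) = 0 := by linear_combination (v1 : ℝ) * h - (v0 : ℝ) * h'
      exact (mul_eq_zero.1 this).resolve_right hne'
    · have : t * ((u0 : ℝ) * v1 - u1 * v0) = 0 := by linear_combination (u0 : ℝ) * h' - (u1 : ℝ) * h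
      exact (mul_eq_zero.1 this).resolve_right hne'
  rcases hcross with hx | hx | hx
  · exact key _ _ _ _ hx (by push_cast; exact h0) (by push_cast; exact h1)
  · exact key _ _ _ _ hx (by push_cast; exact h0) (by push_cast; exact h2)
  · exact key _ _ _ _ hx (by push_cast; exact h1) (by push_cast; exact h2)

/-- **Answer to Q1: no.**  There is a flexible convex polytope with nonempty interior in `ℝ³` no two of whose edges are
parallel. -/
theorem result : ∃ P : Set (E 3), IsPolytope P ∧ (interior P).Nonempty ∧ Flexible P ∧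
    ¬ HasParallelEdges P :=
  ⟨Poly, isPolytope_poly, interior_poly, flexible_poly, no_parallel⟩

end Pool.Agent.Results.MP_cec312_co.NoParallel
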